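import Mathlib
import Pool.Agent.Q177.AW.Main

/-!
# MP_3fc7b1_an, Q2 (hence Q1): every AW*-algebra is clean
-/

set_option autoImplicit false

universe u

namespace Pool.Agent.Results.MP_3fc7b1_an.AWStarClean

/-- A unital ring is clean if each element is the sum of a unit and an idempotent. -/
def IsClean (R : Type u) [Ring R] : Prop :=
  ∀ x : R, ∃ u e : R, IsUnit u ∧ e * e = e ∧ x = u + e

/-- `B` is a commutative self-adjoint subalgebra of `A` which is maximal among the commutative
self-adjoint subalgebras. -/
def IsMaxCommutative {A : Type u} [CStarAlgebra A] (B : StarSubalgebra ℂ A) : Prop :=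
  (∀ x ∈ B, ∀ y ∈ B, x * y = y * x) ∧
    ∀ C : StarSubalgebra ℂ A, (∀ x ∈ C, ∀ y ∈ C, x * y = y * x) → B ≤ C → C ≤ B

/-- The unital C*-algebra `A` is an AW*-algebra: every family of pairwise orthogonal projections
has a least upper bound among the projections (`p ≤ q` means `p * q = p`), and every maximal
commutative self-adjoint subalgebra is contained in the norm closure of the *-algebra generated by
the projections it contains. -/
structure IsAWStarAlgebra (A : Type u) [CStarAlgebra A] : Prop where
  exists_lub : ∀ S : Set A, (∀ p ∈ S, IsStarProjection p) →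
    (∀ p ∈ S, ∀ q ∈ S, p ≠ q → p * q = 0) →
    ∃ e : A, IsStarProjection e ∧ (∀ p ∈ S, p * e = p) ∧
      ∀ f : A, IsStarProjection f → (∀ p ∈ S, p * f = p) → e * f = e
  generated : ∀ B : StarSubalgebra ℂ A, IsMaxCommutative B →
    (B : Set A) ⊆ closure (StarAlgebra.adjoin ℂ {p : A | p ∈ B ∧ IsStarProjection p} : Set A)

/-- Every AW*-algebra is clean. -/
theorem result (A : Type u) [CStarAlgebra A] (hA : IsAWStarAlgebra A) : IsClean A :=
  Q177.AW.isClean ⟨hA.exists_lub, hA.generated⟩

end Pool.Agent.Results.MP_3fc7b1_an.AWStarClean
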